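import Mathlib
import Pool.Agent.H98.TC.Defs

set_option autoImplicit false

/-!
Critical contra pairs on permutation graphs with a short circuit (MP_a46c6f_co): definitions.

A permutation graph with `n` matching edges is encoded by `p : Equiv.Perm (ZMod n)`: the vertices of
`C₁` are `x i`, those of `C₂` are `y j`, and `M` joins `x i` to `y (p i)`. The edge `x i, x (i + 1)`
of `C₁` has the index `i`, the edge `y j, y (j + 1)` of `C₂` has the index `j`.
-/

namespace Pool.Agent.H64.Pent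

open SimpleGraph Pool.Agent.H5.Goddyn Pool.Agent.H98.TC

/-- The edge set given by `a` on `C₁`, `b` on `C₂` (with the matching edges at its ends) is
alternating: at every matching edge there is nothing, or exactly one edge on either side. -/
def Alt {n : ℕ} (p : Equiv.Perm (ZMod n)) (a b : ZMod n → ZMod 2) : Prop :=
  ∀ i, (a (i - 1) = 0 ∧ a i = 0 ∧ b (p i - 1) = 0 ∧ b (p i) = 0) ∨
    (a (i - 1) + a i = 1 ∧ b (p i - 1) + b (p i) = 1)

/-- The matching edge `e` is a bridge after the removal of the edge set `(a, b)`, and `(s, t)` is the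
set of the remaining edges of `C₁`, `C₂` on the side of `x e`. -/
def Side {n : ℕ} (p : Equiv.Perm (ZMod n)) (a b : ZMod n → ZMod 2) (e : ZMod n)
    (s t : ZMod n → ZMod 2) : Prop :=
  (a (e - 1) = 0 ∧ a e = 0 ∧ b (p e - 1) = 0 ∧ b (p e) = 0) ∧
  (s (e - 1) = 1 ∧ s e = 1 ∧ t (p e - 1) = 0 ∧ t (p e) = 0) ∧
  ∀ i, i ≠ e → ∃ v : ZMod 2, s (i - 1) = (1 + a (i - 1)) * v ∧ s i = (1 + a i) * v ∧
    t (p i - 1) = (1 + b (p i - 1)) * v ∧ t (p i) = (1 + b (p i)) * v

/-- Every nonempty alternating edge set leaves a matching bridge. -/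
def Crit {n : ℕ} (p : Equiv.Perm (ZMod n)) : Prop :=
  ∀ a b : ZMod n → ZMod 2, Alt p a b → (∃ i, a i = 1) → ∃ e s t, Side p a b e s t

/-- A numbering of the circuit `C` by `ZMod n`. -/
def Numb {V : Type*} {G : SimpleGraph V} (C : G.Subgraph) {n : ℕ} (x : ZMod n → V) : Prop :=
  Function.Injective x ∧ Set.range x = C.verts ∧
    ∀ i t, C.Adj (x i) t ↔ t = x (i - 1) ∨ t = x (i + 1)

/-- The Petersen graph: outer pentagon `(false, i)`, inner pentagon `(true, i)`, spokes. -/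
def petersen : SimpleGraph (Bool × ZMod 5) where
  Adj u v := (u.1 = false ∧ v.1 = false ∧ (v.2 = u.2 + 1 ∨ u.2 = v.2 + 1)) ∨
    (u.1 = true ∧ v.1 = true ∧ (v.2 = u.2 + 2 ∨ u.2 = v.2 + 2)) ∨ (u.1 ≠ v.1 ∧ u.2 = v.2)
  symm := ⟨by
    rintro u v (⟨h1, h2, h3⟩ | ⟨h1, h2, h3⟩ | ⟨h1, h2⟩)
    · exact Or.inl ⟨h2, h1, h3.symm⟩
    · exact Or.inr (Or.inl ⟨h2, h1, h3.symm⟩)
    · exact Or.inr (Or.inr ⟨h1.symm, h2.symm⟩)⟩
  loopless := ⟨by
    rintro ⟨u1, u2⟩ (⟨_, _, h3⟩ | ⟨_, _, h3⟩ | ⟨h1, _⟩)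
    · exact (show ∀ i : ZMod 5, ¬ (i = i + 1 ∨ i = i + 1) by decide) u2 h3
    · exact (show ∀ i : ZMod 5, ¬ (i = i + 2 ∨ i = i + 2) by decide) u2 h3
    · exact h1 rfl⟩

/-- `(G, wt M)` is isomorphic to `(P₁₀, w₁₀)`: an isomorphism onto the Petersen graph takes `M` to
the spokes (a perfect matching whose removal leaves two disjoint pentagons). -/
def IsPetersenPair {V : Type*} (G : SimpleGraph V) (M : G.Subgraph) : Prop :=
  ∃ φ : G ≃g petersen, ∀ u v, M.Adj u v ↔ ((φ u).1 ≠ (φ v).1 ∧ (φ u).2 = (φ v).2)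

/-- `(G, w)` is a critical contra pair: no faithful circuit cover, no removable circuit. -/
def IsCriticalContraPair {V : Type*} (G : SimpleGraph V) (w : Sym2 V → ℕ) : Prop :=
  ¬ HasFaithfulCircuitCover G w ∧ ∀ C : G.Subgraph, ¬ Removable G w C

end Pool.Agent.H64.Pent
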