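import Mathlib
import Pool.Agent.H64.Pent.Defs

set_option autoImplicit false

/-!
Basic facts for the core of the pentagon theorem (MP_a46c6f_co).
-/

namespace Pool.Agent.H64.Pent

/-- The alternating function which is `0` at `u`. -/
def R {n : ℕ} (u i : ZMod n) : ZMod 2 := ((i - u).val : ZMod 2)

lemma val_succ {n : ℕ} [NeZero n] (hn : 2 ≤ n) (k : ZMod n) (hk : k + 1 ≠ 0) :
    ((k + 1).val : ZMod 2) = (k.val : ZMod 2) + 1 := by
  have h1 : (1 : ZMod n).val = 1 := by
    have : Fact (1 < n) := ⟨by omega⟩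
    exact ZMod.val_one n
  have h2 : (k + 1).val = (k.val + 1) % n := by rw [ZMod.val_add, h1]
  have h3 := ZMod.val_lt k
  have h4 : k.val + 1 < n := by
    by_contra hcon
    have h5 : k.val + 1 = n := by omega
    rw [h5, Nat.mod_self] at h2
    exact hk ((ZMod.val_eq_zero _).1 h2)
  rw [h2, Nat.mod_eq_of_lt h4]
  push_cast
  rfl

lemma val_neg_one {n : ℕ} [NeZero n] (hn : 2 ≤ n) (hodd : n % 2 = 1) :
    (((-1 : ZMod n)).val : ZMod 2) = 0 := by
  have h1 : (1 : ZMod n).val = 1 := by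
    have : Fact (1 < n) := ⟨by omega⟩
    exact ZMod.val_one n
  have h2 : ((-1 : ZMod n) + 1).val = ((-1 : ZMod n).val + 1) % n := by rw [ZMod.val_add, h1]
  rw [neg_add_cancel, ZMod.val_zero] at h2
  have h3 := ZMod.val_lt (-1 : ZMod n)
  have h4 : (-1 : ZMod n).val + 1 = n := by
    have h5 := Nat.dvd_of_mod_eq_zero h2.symm
    obtain ⟨c, hc⟩ := h5
    have h6 : c = 1 := by
      rcases c with _ | _ | c
      · omega
      · rfl
      · exfalso
        have : n * (c + 1 + 1) = n * c + n + n := by ring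
        have h7 : 0 ≤ n * c := Nat.zero_le _
        omega
    rw [h6, mul_one] at hc
    exact hc
  rw [ZMod.natCast_eq_zero_iff]
  omega

lemma R_self {n : ℕ} [NeZero n] (u : ZMod n) : R u u = 0 := by simp [R]

lemma R_pred {n : ℕ} [NeZero n] (hn : 2 ≤ n) (hodd : n % 2 = 1) (u : ZMod n) :
    R u (u - 1) = 0 := by
  unfold R
  have : u - 1 - u = -1 := by ring
  rw [this]
  exact val_neg_one hn hodd

lemma R_step {n : ℕ} [NeZero n] (hn : 2 ≤ n) (u i : ZMod n) (h : i ≠ u) :
    R u i = 1 + R u (i - 1) := by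
  unfold R
  have h1 : i - u = (i - 1 - u) + 1 := by ring
  rw [h1, val_succ hn, add_comm]
  rw [← h1]
  exact sub_ne_zero.2 h

lemma R_shift {n : ℕ} [NeZero n] (hn : 2 ≤ n) (u i : ZMod n) (h : i ≠ u) :
    R (u + 1) i = 1 + R u i := by
  unfold R
  have h1 : i - u = (i - (u + 1)) + 1 := by ring
  have h2 := val_succ hn (i - (u + 1)) (by rw [← h1]; exact sub_ne_zero.2 h)
  rw [← h1] at h2
  rw [h2]
  generalize (((i - (u + 1)).val : ℕ) : ZMod 2) = z
  revert z
  decide

lemma alt_unique {n : ℕ} [NeZero n] (u : ZMod n) (F : ZMod n → ZMod 2) (h0 : F u = 0)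
    (h : ∀ i, i ≠ u → F (i - 1) + F i = 1) (i : ZMod n) : F i = R u i := by
  have key : ∀ k : ℕ, k < n → F (u + (k : ZMod n)) = (k : ZMod 2) := by
    intro k
    induction k with
    | zero => intro _; simpa using h0
    | succ k ih =>
      intro hk
      have h1 := ih (by omega)
      have hne : u + ((k + 1 : ℕ) : ZMod n) ≠ u := by
        intro he
        have h2 : ((k + 1 : ℕ) : ZMod n) = 0 := by simpa using he
        rw [ZMod.natCast_eq_zero_iff] at h2
        have := Nat.le_of_dvd (by omega) h2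
        omega
      have h2 := h _ hne
      have h3 : u + ((k + 1 : ℕ) : ZMod n) - 1 = u + (k : ZMod n) := by push_cast; ring
      rw [h3, h1] at h2
      have h4 : ((k + 1 : ℕ) : ZMod 2) = (k : ZMod 2) + 1 := by push_cast; rfl
      rw [h4]
      exact (show ∀ z z' : ZMod 2, z + z' = 1 → z' = z + 1 by decide) _ _ h2
  have h1 := key (i - u).val (ZMod.val_lt _)
  rw [ZMod.natCast_zmod_val] at h1
  have h2 : u + (i - u) = i := by ring
  rw [h2] at h1
  exact h1

lemma sum_shift {n : ℕ} [NeZero n] (F : ZMod n → ZMod 2) : ∑ i, F (i - 1) = ∑ i, F i :=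
  Equiv.sum_comp (Equiv.subRight (1 : ZMod n)) F

lemma pairing {n : ℕ} [NeZero n] (p : Equiv.Perm (ZMod n)) (a b a' b' : ZMod n → ZMod 2)
    (h : ∀ i, a (i - 1) + a i = b (p i - 1) + b (p i))
    (h' : ∀ i, a' (i - 1) + a' i = b' (p i - 1) + b' (p i)) :
    ∑ i, ((a (i - 1) + a i) * (a' i + b' (p i)) + (a i + b (p i)) * (a' (i - 1) + a' i)) = 0 := by
  have e1 : ∀ i, ((a (i - 1) + a i) * (a' i + b' (p i)) + (a i + b (p i)) * (a' (i - 1) + a' i)) =
      (a (i - 1) * a' (i - 1) + a i * a' i) + (b (p i - 1) * b' (p i - 1) + b (p i) * b' (p i)) := by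
    intro i
    have h1 := h i
    have h2 := h' i
    generalize a (i - 1) = x1 at *
    generalize a i = x2 at *
    generalize a' (i - 1) = x3 at *
    generalize a' i = x4 at *
    generalize b (p i - 1) = x5 at *
    generalize b (p i) = x6 at *
    generalize b' (p i - 1) = x7 at *
    generalize b' (p i) = x8 at *
    revert x1 x2 x3 x4 x5 x6 x7 x8
    decide
  rw [Finset.sum_congr rfl (fun i _ => e1 i), Finset.sum_add_distrib, Finset.sum_add_distrib,
    Finset.sum_add_distrib]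
  have e2 : ∑ i, a (i - 1) * a' (i - 1) = ∑ i, a i * a' i := sum_shift (fun i => a i * a' i)
  have e3 : ∑ i, b (p i - 1) * b' (p i - 1) = ∑ i, b (p i) * b' (p i) := by
    rw [Equiv.sum_comp p (fun j => b (j - 1) * b' (j - 1)), Equiv.sum_comp p (fun j => b j * b' j)]
    exact sum_shift (fun i => b i * b' i)
  rw [e2, e3, CharTwo.add_self_eq_zero, CharTwo.add_self_eq_zero, add_zero]

lemma sum_three {n : ℕ} [NeZero n] (F : ZMod n → ZMod 2) (i1 i2 i3 : ZMod n) (x1 x2 x3 : ZMod 2)
    (h : ∀ i, F i = (if i = i1 then x1 else 0) + (if i = i2 then x2 else 0) +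
      (if i = i3 then x3 else 0)) : ∑ i, F i = x1 + x2 + x3 := by
  rw [Finset.sum_congr rfl (fun i _ => h i), Finset.sum_add_distrib, Finset.sum_add_distrib]
  simp

lemma ne_add_one {n : ℕ} [NeZero n] (hn : 5 ≤ n) (u : ZMod n) : u + 1 ≠ u := by
  intro h
  have h1 : ((1 : ℕ) : ZMod n) = 0 := by
    have : u + 1 = u + 0 := by rw [h, add_zero]
    simpa using add_left_cancel this
  rw [ZMod.natCast_eq_zero_iff] at h1
  have := Nat.le_of_dvd (by omega) h1
  omega

lemma ne_add_two {n : ℕ} [NeZero n] (hn : 5 ≤ n) (u : ZMod n) : u + 2 ≠ u := by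
  intro h
  have h1 : ((2 : ℕ) : ZMod n) = 0 := by
    have : u + 2 = u + 0 := by rw [h, add_zero]
    simpa using add_left_cancel this
  rw [ZMod.natCast_eq_zero_iff] at h1
  have := Nat.le_of_dvd (by omega) h1
  omega

end Pool.Agent.H64.Pent
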