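import Mathlib
import Pool.Agent.H64.Pent.Basic

set_option autoImplicit false

/-!
First steps of the core of the pentagon theorem (MP_a46c6f_co).
-/

namespace Pool.Agent.H64.Pent

/-- the indicator of one index -/
def ind {n : ℕ} (k i : ZMod n) : ZMod 2 := if i = k then 1 else 0

lemma ind_self {n : ℕ} (k : ZMod n) : ind k k = 1 := by simp [ind]
lemma ind_ne {n : ℕ} {k i : ZMod n} (h : i ≠ k) : ind k i = 0 := by simp [ind, h]

/-- Step 1: the canonical state at `f`. -/
lemma stepA {n : ℕ} [NeZero n] (hn : 5 ≤ n) (hodd : n % 2 = 1) (p : Equiv.Perm (ZMod n))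
    (hC : Crit p) (f : ZMod n) :
    ∃ s t v1 : ZMod n → ZMod 2, s (f - 1) = 1 ∧ s f = 1 ∧ t (p f - 1) = 0 ∧ t (p f) = 0 ∧
      ∀ i, i ≠ f → s (i - 1) = (1 + R f (i - 1)) * v1 i ∧ s i = R f (i - 1) * v1 i ∧
        t (p i - 1) = (1 + R (p f) (p i - 1)) * v1 i ∧ t (p i) = R (p f) (p i - 1) * v1 i := by
  have hstep : ∀ u i : ZMod n, i ≠ u → R u i = 1 + R u (i - 1) := R_step (by omega)
  have hpne : ∀ i, i ≠ f → p i ≠ p f := fun i hi h => hi (p.injective h)
  have hA : Alt p (R f) (R (p f)) := by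
    intro i
    by_cases hi : i = f
    · subst hi
      exact Or.inl ⟨R_pred (by omega) hodd _, R_self _, R_pred (by omega) hodd _, R_self _⟩
    · right
      rw [hstep f i hi, hstep (p f) (p i) (hpne i hi)]
      constructor
      · generalize R f (i - 1) = z
        revert z; decide
      · generalize R (p f) (p i - 1) = z
        revert z; decide
  have hne : ∃ i, R f i = 1 := by
    refine ⟨f + 1, ?_⟩
    rw [hstep f (f + 1) (ne_add_one hn f)]
    have : f + 1 - 1 = f := by ring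
    rw [this, R_self]
    decide
  obtain ⟨e, s, t, h1, h2, h3⟩ := hC _ _ hA hne
  have hef : e = f := by
    by_contra hcon
    have h4 := hstep f e hcon
    rw [h1.1, h1.2.1] at h4
    revert h4
    decide
  subst hef
  choose! v hv using h3
  refine ⟨s, t, v, h2.1, h2.2.1, h2.2.2.1, h2.2.2.2, ?_⟩
  intro i hi
  obtain ⟨g1, g2, g3, g4⟩ := hv i hi
  refine ⟨g1, ?_, g3, ?_⟩
  · rw [g2, hstep e i hi]
    generalize R e (i - 1) = z
    generalize v i = z'
    revert z z'; decide
  · rw [g4, hstep (p e) (p i) (hpne i hi)]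
    generalize R (p e) (p i - 1) = z
    generalize v i = z'
    revert z z'; decide

/-- Steps 2 and 3. -/
lemma stepB {n : ℕ} [NeZero n] (hn : 5 ≤ n) (hodd : n % 2 = 1) (p : Equiv.Perm (ZMod n))
    (hC : Crit p) (f : ZMod n) (hg : p (f + 2) = p f + 1) (s t v1 : ZMod n → ZMod 2)
    (hs1 : s (f - 1) = 1) (hs2 : s f = 1) (ht1 : t (p f - 1) = 0) (ht2 : t (p f) = 0)
    (hv1 : ∀ i, i ≠ f → s (i - 1) = (1 + R f (i - 1)) * v1 i ∧ s i = R f (i - 1) * v1 i ∧
        t (p i - 1) = (1 + R (p f) (p i - 1)) * v1 i ∧ t (p i) = R (p f) (p i - 1) * v1 i) :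
    v1 (f + 1) = 1 ∧ v1 (f + 2) = 0 ∧
    ∃ (h : ZMod n) (da db v : ZMod n → ZMod 2) (l : ZMod 2),
      h ≠ f ∧ h ≠ f + 1 ∧ h ≠ f + 2 ∧ v1 h = 0 ∧
      da (h - 1) = 1 + l ∧ da h = 1 + l ∧ db (p h - 1) = l ∧ db (p h) = l ∧
      da (f - 1) = 0 ∧ da f = 0 ∧ db (p f - 1) = 0 ∧ db (p f) = 0 ∧
      da (f + 1) = 0 ∧ db (p (f + 1) - 1) = 0 ∧ db (p (f + 1)) = 0 ∧
      da (f + 2) = 1 ∧ db (p f + 1) = 1 ∧
      ∀ i, i ≠ f → i ≠ f + 1 → i ≠ f + 2 → i ≠ h →
        da (i - 1) = (1 + s (i - 1)) * v i ∧ da i = (1 + s i) * v i ∧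
        db (p i - 1) = (1 + t (p i - 1)) * v i ∧ db (p i) = (1 + t (p i)) * v i := by
  have hstep : ∀ u i : ZMod n, i ≠ u → R u i = 1 + R u (i - 1) := R_step (by omega)
  have hpne : ∀ i, i ≠ f → p i ≠ p f := fun i hi h => hi (p.injective h)
  have hpne' : ∀ i, i ≠ f + 2 → p i - 1 ≠ p f := by
    intro i hi h
    apply hi
    apply p.injective
    rw [hg, ← h]; ring
  have hef : f + 1 ≠ f := ne_add_one hn f
  have hgf : f + 2 ≠ f := ne_add_two hn f
  have hge : f + 2 ≠ f + 1 := by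
    intro h; apply ne_add_one hn (f + 1)
    rw [show f + 1 + 1 = f + 2 by ring]; exact h
  have hf1 : f - 1 ≠ f := by
    intro h; apply ne_add_one hn (f - 1)
    rw [sub_add_cancel]; exact h.symm
  have hf1' : f - 1 ≠ f + 1 := by
    intro h; apply ne_add_two hn (f - 1)
    rw [show f - 1 + 2 = f + 1 by ring]; exact h.symm
  have hq1 : p f - 1 ≠ p f := by
    intro h; apply ne_add_one hn (p f - 1)
    rw [sub_add_cancel]; exact h.symm
  have hq2 : p f + 1 ≠ p f := ne_add_one hn _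
  have e1 : f + 1 - 1 = f := by ring
  have e2 : f + 2 - 1 = f + 1 := by ring
  have e3 : p (f + 2) - 1 = p f := by rw [hg]; ring
  -- values at e
  have hve : v1 (f + 1) = 1 := by
    have h1 := (hv1 (f + 1) hef).1
    rw [e1, hs2, R_self] at h1
    rw [h1]; ring
  have hse : s (f + 1) = 0 := by
    have h1 := (hv1 (f + 1) hef).2.1
    rw [e1, R_self] at h1
    rw [h1]; ring
  have hvg : v1 (f + 2) = 0 := by
    have h1 := (hv1 (f + 2) hgf).2.2.1
    rw [e3, ht2, R_self] at h1
    rw [add_zero, one_mul] at h1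
    exact h1.symm
  have hsg : s (f + 2) = 0 := by
    have h1 := (hv1 (f + 2) hgf).2.1
    rw [h1, hvg, mul_zero]
  have htg : t (p f + 1) = 0 := by
    have h1 := (hv1 (f + 2) hgf).2.2.2
    rw [← hg, h1, hvg, mul_zero]
  refine ⟨hve, hvg, ?_⟩
  -- the pair kap
  set ka : ZMod n → ZMod 2 := fun i => s i + ind f i + ind (f + 1) i with hka
  set kb : ZMod n → ZMod 2 := fun j => t j + ind (p f) j with hkb
  have kaf1 : ka (f - 1) = 1 := by
    simp only [hka]; rw [hs1, ind_ne hf1, ind_ne hf1']; decide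
  have kaf : ka f = 0 := by
    simp only [hka]; rw [hs2, ind_self, ind_ne hef.symm]; decide
  have kae : ka (f + 1) = 1 := by
    simp only [hka]; rw [hse, ind_ne hef, ind_self]; decide
  have kag : ka (f + 2) = 0 := by
    simp only [hka]; rw [hsg, ind_ne hgf, ind_ne hge]; decide
  have kbf1 : kb (p f - 1) = 0 := by
    simp only [hkb]; rw [ht1, ind_ne hq1]; decide
  have kbf : kb (p f) = 1 := by
    simp only [hkb]; rw [ht2, ind_self]; decide
  have kbg : kb (p f + 1) = 0 := by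
    simp only [hkb]; rw [htg, ind_ne hq2]; decide
  have kae1 : ∀ i, i ≠ f + 1 → i ≠ f + 2 → ka (i - 1) = s (i - 1) := by
    intro i h1 h2
    simp only [hka]
    rw [ind_ne, ind_ne, add_zero, add_zero]
    · intro h; apply h2; rw [← sub_add_cancel i 1, h]; ring
    · intro h; apply h1; rw [← sub_add_cancel i 1, h]
  have kae2 : ∀ i, i ≠ f → i ≠ f + 1 → ka i = s i := by
    intro i h1 h2
    simp only [hka]
    rw [ind_ne h1, ind_ne h2, add_zero, add_zero]
  have kbe1 : ∀ i, i ≠ f + 2 → kb (p i - 1) = t (p i - 1) := by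
    intro i h1
    simp only [hkb]
    rw [ind_ne (hpne' i h1), add_zero]
  have kbe2 : ∀ i, i ≠ f → kb (p i) = t (p i) := by
    intro i h1
    simp only [hkb]
    rw [ind_ne (hpne i h1), add_zero]
  have hK : Alt p ka kb := by
    intro i
    by_cases hi : i = f
    · subst hi
      right
      rw [kaf1, kaf, kbf1, kbf]
      decide
    by_cases hi2 : i = f + 1
    · subst hi2
      right
      rw [e1, kaf, kae, kbe1 _ hge.symm, kbe2 _ hef]
      obtain ⟨-, -, g3, g4⟩ := hv1 (f + 1) hef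
      rw [g3, g4, hve]
      refine ⟨by decide, ?_⟩
      generalize R (p f) (p (f + 1) - 1) = z
      revert z; decide
    by_cases hi3 : i = f + 2
    · subst hi3
      right
      rw [e2, kae, kag, e3, hg, kbf, kbg]
      decide
    · rw [kae1 i hi2 hi3, kae2 i hi hi2, kbe1 i hi3, kbe2 i hi]
      obtain ⟨g1, g2, g3, g4⟩ := hv1 i hi
      rw [g1, g2, g3, g4]
      generalize R f (i - 1) = z1
      generalize R (p f) (p i - 1) = z2
      generalize v1 i = z3
      revert z1 z2 z3; decide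
  obtain ⟨h, th, ta, k1, k2, k3⟩ := hC ka kb hK ⟨f + 1, kae⟩
  choose! w hw using k3
  -- h is not one of f, e, g
  have hhf : h ≠ f := by
    rintro rfl
    rw [kaf1] at k1
    exact absurd k1.1 (by decide)
  have hhe : h ≠ f + 1 := by
    rintro rfl
    rw [kae] at k1
    exact absurd k1.2.1 (by decide)
  have hhg : h ≠ f + 2 := by
    rintro rfl
    rw [e2, kae] at k1
    exact absurd k1.1 (by decide)
  have hvh : v1 h = 0 := by
    have h1 := k1.1
    have h2 := k1.2.1
    rw [kae1 h hhe hhg, (hv1 h hhf).1] at h1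
    rw [kae2 h hhf hhe, (hv1 h hhf).2.1] at h2
    generalize R f (h - 1) = z1 at *
    generalize v1 h = z2 at *
    revert z1 z2; decide
  -- local values of the side
  obtain ⟨a1, a2, a3, a4⟩ := hw f hhf.symm
  obtain ⟨b1, b2, b3, b4⟩ := hw (f + 1) hhe.symm
  obtain ⟨c1, c2, c3, c4⟩ := hw (f + 2) hhg.symm
  rw [kaf1] at a1
  rw [kaf] at a2
  rw [kbf1] at a3
  rw [kbf] at a4
  rw [e1, kaf] at b1
  rw [kae] at b2
  rw [e2, kae] at c1
  rw [kag] at c2
  rw [e3, kbf] at c3
  rw [hg, kbg] at c4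
  have hwe : w (f + 1) = w f :=
    (show ∀ z1 z2 : ZMod 2, (1 + 0) * z1 = (1 + 0) * z2 → z2 = z1 by decide) _ _ (a2.symm.trans b1)
  -- the pairing with the second part
  obtain ⟨pa, hpa⟩ : ∃ pa : ZMod n → ZMod 2, ∀ i, pa i = 1 + R f i + s i := ⟨_, fun _ => rfl⟩
  obtain ⟨pb, hpb⟩ : ∃ pb : ZMod n → ZMod 2, ∀ j, pb j = 1 + R (p f) j + t j := ⟨_, fun _ => rfl⟩
  have hpair := pairing p pa pb th ta (by
    intro i
    rw [hpa, hpa, hpb, hpb]
    by_cases hi : i = f
    · subst hi
      rw [R_pred (by omega) hodd, R_self, R_pred (by omega) hodd, R_self, hs1, hs2, ht1, ht2]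
      decide
    · obtain ⟨g1, g2, g3, g4⟩ := hv1 i hi
      rw [g1, g2, g3, g4, hstep f i hi, hstep (p f) (p i) (hpne i hi)]
      generalize R f (i - 1) = z1
      generalize R (p f) (p i - 1) = z2
      generalize v1 i = z3
      revert z1 z2 z3; decide) (by
    intro i
    by_cases hi : i = h
    · subst hi
      rw [k2.1, k2.2.1, k2.2.2.1, k2.2.2.2]; decide
    · obtain ⟨g1, g2, g3, g4⟩ := hw i hi
      rw [g1, g2, g3, g4]
      have hki := hK i
      exact (show ∀ z1 z2 z3 z4 z5 : ZMod 2, ((z1 = 0 ∧ z2 = 0 ∧ z3 = 0 ∧ z4 = 0) ∨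
        (z1 + z2 = 1 ∧ z3 + z4 = 1)) → (1 + z1) * z5 + (1 + z2) * z5 = (1 + z3) * z5 + (1 + z4) * z5
        by decide) _ _ _ _ _ hki)
  have hsum := sum_three _ f (f + 2) h (w f) (w (f + 2)) 1 (show ∀ i,
      (pa (i - 1) + pa i) * (th i + ta (p i)) + (pa i + pb (p i)) * (th (i - 1) + th i) =
      (if i = f then w f else 0) + (if i = f + 2 then w (f + 2) else 0) +
      (if i = h then 1 else 0) by
    intro i
    rw [hpa, hpa, hpb]
    by_cases hi : i = f
    · subst hi
      rw [if_pos rfl, if_neg hgf.symm, if_neg hhf.symm, R_pred (by omega) hodd, R_self, R_self,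
        hs1, hs2, ht2, a1, a2, a4]
      generalize w i = z1
      revert z1; decide
    by_cases hi2 : i = f + 2
    · subst hi2
      rw [if_neg hgf, if_pos rfl, if_neg hhg.symm, e2, hstep f (f + 2) hgf, e2,
        hstep f (f + 1) hef, e1, R_self, hse, hsg, hg, hstep (p f) (p f + 1) hq2,
        add_sub_cancel_right, R_self, htg, c1, c2, c4]
      generalize w (f + 2) = z1
      revert z1; decide
    by_cases hi3 : i = h
    · subst hi3
      rw [if_neg hhf, if_neg hhg, if_pos rfl, k2.1, k2.2.1, k2.2.2.2]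
      obtain ⟨g1, g2, g3, g4⟩ := hv1 i hhf
      rw [g1, g2, g4, hvh, hstep f i hhf]
      generalize R f (i - 1) = z1
      generalize R (p f) (p i) = z2
      generalize R (p f) (p i - 1) = z3
      revert z1 z2 z3; decide
    rw [if_neg hi, if_neg hi2, if_neg hi3]
    obtain ⟨g1, g2, g3, g4⟩ := hv1 i hi
    obtain ⟨m1, m2, m3, m4⟩ := hw i hi3
    by_cases hi4 : i = f + 1
    · subst hi4
      rw [g1, g2, g4, hve, hstep f (f + 1) hef, hstep (p f) (p (f + 1)) (hpne _ hef), e1, R_self]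
      generalize R (p f) (p (f + 1) - 1) = z1
      generalize th (f + 1) + ta (p (f + 1)) = z2
      generalize th f + th (f + 1) = z3
      revert z1 z2 z3; decide
    · rw [m1, m2, m4, kae1 i hi4 hi2, kae2 i hi hi4, kbe2 i hi, g1, g2, g4, hstep f i hi,
        hstep (p f) (p i) (hpne i hi)]
      generalize R f (i - 1) = z1
      generalize R (p f) (p i - 1) = z2
      generalize v1 i = z3
      generalize w i = z4
      revert z1 z2 z3 z4; decide)
  have hrel : w (f + 2) = 1 + w f :=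
    (show ∀ z1 z2 : ZMod 2, z1 + z2 + 1 = 0 → z2 = 1 + z1 by decide) _ _ (hsum.symm.trans hpair)
  refine ⟨h, fun i => th i + w f * (1 + ka i), fun j => ta j + w f * (1 + kb j),
    fun i => w i + w f, w f, hhf, hhe, hhg, hvh, ?_, ?_, ?_, ?_, ?_, ?_, ?_, ?_, ?_, ?_, ?_, ?_, ?_,
    ?_⟩
  · simp only; rw [k2.1, k1.1]; ring
  · simp only; rw [k2.2.1, k1.2.1]; ring
  · simp only; rw [k2.2.2.1, k1.2.2.1]; ring
  · simp only; rw [k2.2.2.2, k1.2.2.2]; ring
  · simp only; rw [a1, kaf1]; generalize w f = z; revert z; decide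
  · simp only; rw [a2, kaf]; generalize w f = z; revert z; decide
  · simp only; rw [a3, kbf1]; generalize w f = z; revert z; decide
  · simp only; rw [a4, kbf]; generalize w f = z; revert z; decide
  · simp only; rw [b2, kae, hwe]; generalize w f = z; revert z; decide
  · simp only; rw [b3, hwe]; generalize w f = z; generalize kb (p (f + 1) - 1) = z'
    revert z z'; decide
  · simp only; rw [b4, hwe]; generalize w f = z; generalize kb (p (f + 1)) = z'
    revert z z'; decide
  · simp only; rw [c2, kag, hrel]; generalize w f = z; revert z; decide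
  · simp only; rw [c4, kbg, hrel]; generalize w f = z; revert z; decide
  · intro i hi hi4 hi2 hi3
    obtain ⟨m1, m2, m3, m4⟩ := hw i hi3
    simp only
    rw [m1, m2, m3, m4, kae1 i hi4 hi2, kae2 i hi hi4, kbe1 i hi2, kbe2 i hi]
    refine ⟨by ring, by ring, by ring, by ring⟩

end Pool.Agent.H64.Pent
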