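import Mathlib
import Pool.Agent.H64.Pent.StepA

set_option autoImplicit false

/-!
Second bridge in the core of the pentagon theorem (MP_a46c6f_co).
-/

namespace Pool.Agent.H64.Pent

lemma stepC {n : ℕ} [NeZero n] (hn : 5 ≤ n) (hodd : n % 2 = 1) (p : Equiv.Perm (ZMod n))
    (hC : Crit p) (f : ZMod n) (hg : p (f + 2) = p f + 1) (s t v1 : ZMod n → ZMod 2)
    (hs1 : s (f - 1) = 1) (hs2 : s f = 1) (ht1 : t (p f - 1) = 0) (ht2 : t (p f) = 0)
    (hv1 : ∀ i, i ≠ f → s (i - 1) = (1 + R f (i - 1)) * v1 i ∧ s i = R f (i - 1) * v1 i ∧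
        t (p i - 1) = (1 + R (p f) (p i - 1)) * v1 i ∧ t (p i) = R (p f) (p i - 1) * v1 i)
    (hve : v1 (f + 1) = 1) (hvg : v1 (f + 2) = 0)
    (h : ZMod n) (da db v : ZMod n → ZMod 2) (l : ZMod 2)
    (hhf : h ≠ f) (hhe : h ≠ f + 1) (hhg : h ≠ f + 2) (hvh : v1 h = 0)
    (ah1 : da (h - 1) = 1 + l) (ah2 : da h = 1 + l) (bh1 : db (p h - 1) = l) (bh2 : db (p h) = l)
    (af1 : da (f - 1) = 0) (af2 : da f = 0) (bf1 : db (p f - 1) = 0) (bf2 : db (p f) = 0)
    (ae : da (f + 1) = 0) (be1 : db (p (f + 1) - 1) = 0) (be2 : db (p (f + 1)) = 0)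
    (ag : da (f + 2) = 1) (bg : db (p f + 1) = 1)
    (hv : ∀ i, i ≠ f → i ≠ f + 1 → i ≠ f + 2 → i ≠ h →
        da (i - 1) = (1 + s (i - 1)) * v i ∧ da i = (1 + s i) * v i ∧
        db (p i - 1) = (1 + t (p i - 1)) * v i ∧ db (p i) = (1 + t (p i)) * v i) :
    ∃ (k : ZMod n) (ea eb w : ZMod n → ZMod 2) (m : ZMod 2),
      k ≠ f ∧ k ≠ f + 1 ∧ k ≠ f + 2 ∧ k ≠ h ∧ v1 k = 1 ∧ v k = 1 ∧
      ea (k - 1) = 1 + m ∧ ea k = 1 + m ∧ eb (p k - 1) = m ∧ eb (p k) = m ∧
      ea (f - 1) = 1 ∧ ea f = 0 ∧ eb (p f - 1) = 1 ∧ eb (p f) = 0 ∧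
      ea (f + 1) = 0 ∧ eb (p (f + 1) - 1) = 0 ∧ eb (p (f + 1)) = 0 ∧
      ea (f + 2) = 0 ∧ eb (p f + 1) = 0 ∧
      ∀ i, i ≠ f → i ≠ f + 1 → i ≠ f + 2 → i ≠ k →
        ea (i - 1) = (1 + (R f (i - 1) + da (i - 1))) * w i ∧ ea i = (1 + (R f i + da i)) * w i ∧
        eb (p i - 1) = (1 + (R (p f) (p i - 1) + db (p i - 1))) * w i ∧
        eb (p i) = (1 + (R (p f) (p i) + db (p i))) * w i := by
  have hstep : ∀ u i : ZMod n, i ≠ u → R u i = 1 + R u (i - 1) := R_step (by omega)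
  have hpne : ∀ i, i ≠ f → p i ≠ p f := fun i hi h => hi (p.injective h)
  have hpne' : ∀ i, i ≠ f + 2 → p i - 1 ≠ p f := by
    intro i hi h
    apply hi
    apply p.injective
    rw [hg, ← h]; ring
  have hef : f + 1 ≠ f := ne_add_one hn f
  have hgf : f + 2 ≠ f := ne_add_two hn f
  have hge : f + 2 ≠ f + 1 := by
    intro h; apply ne_add_one hn (f + 1)
    rw [show f + 1 + 1 = f + 2 by ring]; exact h
  have hf1 : f - 1 ≠ f := by
    intro h; apply ne_add_one hn (f - 1)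
    rw [sub_add_cancel]; exact h.symm
  have hf1' : f - 1 ≠ f + 1 := by
    intro h; apply ne_add_two hn (f - 1)
    rw [show f - 1 + 2 = f + 1 by ring]; exact h.symm
  have hq1 : p f - 1 ≠ p f := by
    intro h; apply ne_add_one hn (p f - 1)
    rw [sub_add_cancel]; exact h.symm
  have hq2 : p f + 1 ≠ p f := ne_add_one hn _
  have e1 : f + 1 - 1 = f := by ring
  have e2 : f + 2 - 1 = f + 1 := by ring
  have e3 : p (f + 2) - 1 = p f := by rw [hg]; ring
  have hse : s (f + 1) = 0 := by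
    have h1 := (hv1 (f + 1) hef).2.1
    rw [e1, R_self] at h1
    rw [h1]; ring
  have hsg : s (f + 2) = 0 := by
    have h1 := (hv1 (f + 2) hgf).2.1
    rw [h1, hvg, mul_zero]
  have htg : t (p f + 1) = 0 := by
    have h1 := (hv1 (f + 2) hgf).2.2.2
    rw [← hg, h1, hvg, mul_zero]
  have hRe : R f (f + 1) = 1 := by
    rw [hstep f _ hef, e1, R_self]; decide
  have hRg : R f (f + 2) = 0 := by
    rw [hstep f _ hgf, e2, hRe]; decide
  have hRq : R (p f) (p f + 1) = 1 := by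
    rw [hstep _ _ hq2, add_sub_cancel_right, R_self]; decide
  obtain ⟨va, hva⟩ : ∃ va : ZMod n → ZMod 2, ∀ i, va i = R f i + da i + ind f i + ind (f + 1) i :=
    ⟨_, fun _ => rfl⟩
  obtain ⟨vb, hvb⟩ : ∃ vb : ZMod n → ZMod 2, ∀ j, vb j = R (p f) j + db j + ind (p f) j :=
    ⟨_, fun _ => rfl⟩
  have vaf1 : va (f - 1) = 0 := by
    rw [hva, R_pred (by omega) hodd, af1, ind_ne hf1, ind_ne hf1']; decide
  have vaf : va f = 1 := by
    rw [hva, R_self, af2, ind_self, ind_ne hef.symm]; decide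
  have vae : va (f + 1) = 0 := by
    rw [hva, hRe, ae, ind_ne hef, ind_self]; decide
  have vag : va (f + 2) = 1 := by
    rw [hva, hRg, ag, ind_ne hgf, ind_ne hge]; decide
  have vbf1 : vb (p f - 1) = 0 := by
    rw [hvb, R_pred (by omega) hodd, bf1, ind_ne hq1]; decide
  have vbf : vb (p f) = 1 := by
    rw [hvb, R_self, bf2, ind_self]; decide
  have vbg : vb (p f + 1) = 0 := by
    rw [hvb, hRq, bg, ind_ne hq2]; decide
  have va1 : ∀ i, i ≠ f + 1 → i ≠ f + 2 → va (i - 1) = R f (i - 1) + da (i - 1) := by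
    intro i h1 h2
    rw [hva, ind_ne, ind_ne, add_zero, add_zero]
    · intro h; apply h2; rw [← sub_add_cancel i 1, h]; ring
    · intro h; apply h1; rw [← sub_add_cancel i 1, h]
  have va2 : ∀ i, i ≠ f → i ≠ f + 1 → va i = R f i + da i := by
    intro i h1 h2
    rw [hva, ind_ne h1, ind_ne h2, add_zero, add_zero]
  have vb1 : ∀ i, i ≠ f + 2 → vb (p i - 1) = R (p f) (p i - 1) + db (p i - 1) := by
    intro i h1
    rw [hvb, ind_ne (hpne' i h1), add_zero]
  have vb2 : ∀ i, i ≠ f → vb (p i) = R (p f) (p i) + db (p i) := by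
    intro i h1
    rw [hvb, ind_ne (hpne i h1), add_zero]
  have hK : Alt p va vb := by
    intro i
    by_cases hi : i = f
    · subst hi
      right
      rw [vaf1, vaf, vbf1, vbf]
      decide
    by_cases hi2 : i = f + 1
    · subst hi2
      right
      rw [e1, vaf, vae, vb1 _ hge.symm, vb2 _ hef, be1, be2, hstep (p f) _ (hpne _ hef)]
      refine ⟨by decide, ?_⟩
      generalize R (p f) (p (f + 1) - 1) = z
      revert z; decide
    by_cases hi3 : i = f + 2
    · subst hi3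
      right
      rw [e2, vae, vag, e3, hg, vbf, vbg]
      decide
    by_cases hi4 : i = h
    · subst hi4
      right
      rw [va1 i hi2 hi3, va2 i hi hi2, vb1 i hi3, vb2 i hi, ah1, ah2, bh1, bh2, hstep f i hi,
        hstep (p f) (p i) (hpne i hi)]
      exact (show ∀ z1 z2 l : ZMod 2, z1 + (1 + l) + (1 + z1 + (1 + l)) = 1 ∧
        z2 + l + (1 + z2 + l) = 1 by decide) _ _ _
    · rw [va1 i hi2 hi3, va2 i hi hi2, vb1 i hi3, vb2 i hi]
      obtain ⟨g1, g2, g3, g4⟩ := hv1 i hi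
      obtain ⟨m1, m2, m3, m4⟩ := hv i hi hi2 hi3 hi4
      rw [m1, m2, m3, m4, g1, g2, g3, g4, hstep f i hi, hstep (p f) (p i) (hpne i hi)]
      generalize R f (i - 1) = z1
      generalize R (p f) (p i - 1) = z2
      generalize v1 i = z3
      generalize v i = z4
      revert z1 z2 z3 z4; decide
  obtain ⟨k, th, ta, k1, k2, k3⟩ := hC va vb hK ⟨f, vaf⟩
  choose! w hw using k3
  have hkf : k ≠ f := by
    rintro rfl
    rw [vaf] at k1
    exact absurd k1.2.1 (by decide)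
  have hke : k ≠ f + 1 := by
    rintro rfl
    rw [e1, vaf] at k1
    exact absurd k1.1 (by decide)
  have hkg : k ≠ f + 2 := by
    rintro rfl
    rw [vag] at k1
    exact absurd k1.2.1 (by decide)
  have hkh : k ≠ h := by
    rintro rfl
    have h1 := k1.1
    have h2 := k1.2.1
    rw [va1 k hke hkg, ah1] at h1
    rw [va2 k hkf hke, ah2, hstep f k hkf] at h2
    exact (show ∀ z1 z2 : ZMod 2, z1 + (1 + z2) = 0 → 1 + z1 + (1 + z2) = 0 → False by decide)
      _ _ h1 h2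
  have hvk : v1 k = 1 ∧ v k = 1 := by
    have h1 := k1.1
    have h2 := k1.2.1
    obtain ⟨g1, g2, -, -⟩ := hv1 k hkf
    obtain ⟨m1, m2, -, -⟩ := hv k hkf hke hkg hkh
    rw [va1 k hke hkg, m1, g1] at h1
    rw [va2 k hkf hke, m2, g2, hstep f k hkf] at h2
    exact (show ∀ z1 z2 z3 : ZMod 2, z1 + (1 + (1 + z1) * z2) * z3 = 0 →
      1 + z1 + (1 + z1 * z2) * z3 = 0 → z2 = 1 ∧ z3 = 1 by decide) _ _ _ h1 h2
  obtain ⟨a1, a2, a3, a4⟩ := hw f hkf.symm
  obtain ⟨b1, b2, b3, b4⟩ := hw (f + 1) hke.symm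
  obtain ⟨c1, c2, c3, c4⟩ := hw (f + 2) hkg.symm
  rw [vaf1] at a1
  rw [vaf] at a2
  rw [vbf1] at a3
  rw [vbf] at a4
  rw [e1, vaf] at b1
  rw [vae] at b2
  rw [vb1 _ hge.symm, be1] at b3
  rw [vb2 _ hef, be2] at b4
  rw [e2, vae] at c1
  rw [vag] at c2
  rw [e3, vbf] at c3
  rw [hg, vbg] at c4
  have hwg : w (f + 2) = w (f + 1) :=
    (show ∀ z1 z2 : ZMod 2, (1 + 0) * z1 = (1 + 0) * z2 → z2 = z1 by decide) _ _ (b2.symm.trans c1)
  have hpair := pairing p s t th ta (by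
    intro i
    by_cases hi : i = f
    · subst hi
      rw [hs1, hs2, ht1, ht2]
      decide
    · obtain ⟨g1, g2, g3, g4⟩ := hv1 i hi
      rw [g1, g2, g3, g4]
      generalize R f (i - 1) = z1
      generalize R (p f) (p i - 1) = z2
      generalize v1 i = z3
      revert z1 z2 z3; decide) (by
    intro i
    by_cases hi : i = k
    · subst hi
      rw [k2.1, k2.2.1, k2.2.2.1, k2.2.2.2]; decide
    · obtain ⟨g1, g2, g3, g4⟩ := hw i hi
      rw [g1, g2, g3, g4]
      have hki := hK i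
      exact (show ∀ z1 z2 z3 z4 z5 : ZMod 2, ((z1 = 0 ∧ z2 = 0 ∧ z3 = 0 ∧ z4 = 0) ∨
        (z1 + z2 = 1 ∧ z3 + z4 = 1)) → (1 + z1) * z5 + (1 + z2) * z5 = (1 + z3) * z5 + (1 + z4) * z5
        by decide) _ _ _ _ _ hki)
  have hsum := sum_three _ f (f + 1) k (w f) (w (f + 1)) 1 (show ∀ i,
      (s (i - 1) + s i) * (th i + ta (p i)) + (s i + t (p i)) * (th (i - 1) + th i) =
      (if i = f then w f else 0) + (if i = f + 1 then w (f + 1) else 0) +
      (if i = k then 1 else 0) by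
    intro i
    by_cases hi : i = f
    · subst hi
      rw [if_pos rfl, if_neg hef.symm, if_neg hkf.symm, hs1, hs2, ht2, a1, a2, a4]
      generalize w i = z1
      revert z1; decide
    by_cases hi2 : i = f + 1
    · subst hi2
      obtain ⟨g1, g2, g3, g4⟩ := hv1 (f + 1) hef
      rw [if_neg hef, if_pos rfl, if_neg hke.symm, e1, hs2, hse, g4, hve, b1, b2, b4,
        hstep (p f) _ (hpne _ hef)]
      generalize w (f + 1) = z1
      generalize R (p f) (p (f + 1) - 1) = z2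
      revert z1 z2; decide
    by_cases hi3 : i = k
    · subst hi3
      obtain ⟨g1, g2, g3, g4⟩ := hv1 i hkf
      rw [if_neg hkf, if_neg hke, if_pos rfl, k2.1, k2.2.1, k2.2.2.2, g1, g2, g4, hvk.1]
      generalize R f (i - 1) = z1
      generalize R (p f) (p i - 1) = z3
      revert z1 z3; decide
    rw [if_neg hi, if_neg hi2, if_neg hi3]
    obtain ⟨g1, g2, g3, g4⟩ := hv1 i hi
    by_cases hi4 : i = f + 2
    · subst hi4
      rw [g1, g2, g4, hvg]
      ring
    by_cases hi5 : i = h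
    · subst hi5
      rw [g1, g2, g4, hvh]
      ring
    · obtain ⟨m1, m2, m3, m4⟩ := hw i hi3
      obtain ⟨r1, r2, r3, r4⟩ := hv i hi hi2 hi4 hi5
      rw [m1, m2, m4, va1 i hi2 hi4, va2 i hi hi2, vb2 i hi, r1, r2, r4, g1, g2, g4, hstep f i hi,
        hstep (p f) (p i) (hpne i hi)]
      generalize R f (i - 1) = z1
      generalize R (p f) (p i - 1) = z2
      generalize v1 i = z3
      generalize v i = z4
      generalize w i = z5
      revert z1 z2 z3 z4 z5; decide)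
  have hrel : w f = 1 + w (f + 1) :=
    (show ∀ z1 z2 : ZMod 2, z1 + z2 + 1 = 0 → z1 = 1 + z2 by decide) _ _ (hsum.symm.trans hpair)
  refine ⟨k, fun i => th i + w (f + 1) * (1 + va i), fun j => ta j + w (f + 1) * (1 + vb j),
    fun i => w i + w (f + 1), w (f + 1), hkf, hke, hkg, hkh, hvk.1, hvk.2, ?_, ?_, ?_, ?_, ?_, ?_,
    ?_, ?_, ?_, ?_, ?_, ?_, ?_, ?_⟩
  · simp only; rw [k2.1, k1.1]; ring
  · simp only; rw [k2.2.1, k1.2.1]; ring
  · simp only; rw [k2.2.2.1, k1.2.2.1]; ring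
  · simp only; rw [k2.2.2.2, k1.2.2.2]; ring
  · simp only; rw [a1, vaf1, hrel]; generalize w (f + 1) = z; revert z; decide
  · simp only; rw [a2, vaf, hrel]; generalize w (f + 1) = z; revert z; decide
  · simp only; rw [a3, vbf1, hrel]; generalize w (f + 1) = z; revert z; decide
  · simp only; rw [a4, vbf, hrel]; generalize w (f + 1) = z; revert z; decide
  · simp only; rw [b2, vae]; generalize w (f + 1) = z; revert z; decide
  · simp only; rw [b3, vb1 _ hge.symm, be1]; generalize w (f + 1) = z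
    generalize R (p f) (p (f + 1) - 1) = z'
    revert z z'; decide
  · simp only; rw [b4, vb2 _ hef, be2]; generalize w (f + 1) = z
    generalize R (p f) (p (f + 1)) = z'
    revert z z'; decide
  · simp only; rw [c2, vag, hwg]; generalize w (f + 1) = z; revert z; decide
  · simp only; rw [c4, vbg, hwg]; generalize w (f + 1) = z; revert z; decide
  · intro i hi hi2 hi3 hi4
    obtain ⟨m1, m2, m3, m4⟩ := hw i hi4
    simp only
    rw [m1, m2, m3, m4, va1 i hi2 hi3, va2 i hi hi2, vb1 i hi3, vb2 i hi]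
    refine ⟨by ring, by ring, by ring, by ring⟩

end Pool.Agent.H64.Pent
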