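import Mathlib
import Pool.Agent.H64.Pent.StepC

set_option autoImplicit false

/-!
The core of the pentagon theorem (MP_a46c6f_co): a critical permutation with a pentagon has order 5.
-/

namespace Pool.Agent.H64.Pent

/-- local shape of the pair `u` (values `a1 a2 b1 b2`) and `T` (values `c1 c2 d1 d2`) -/
def Loc (a1 a2 b1 b2 c1 c2 d1 d2 : ZMod 2) : Prop :=
  (c1 = 0 ∧ c2 = 0 ∧ d1 = 0 ∧ d2 = 0 ∧ a1 + a2 = 1 ∧ b1 + b2 = 1) ∨
  (a1 = 0 ∧ a2 = 0 ∧ b1 = 0 ∧ b2 = 0 ∧ c1 + c2 = 1 ∧ d1 + d2 = 1) ∨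
  (c1 = 1 + a1 ∧ c2 = 1 + a2 ∧ d1 = 1 + b1 ∧ d2 = 1 + b2 ∧ a1 + a2 = 1 ∧ b1 + b2 = 1)

lemma loc_k : ∀ x y m : ZMod 2, Loc (x + (1 + (1 + x) * 1) * 1) (1 + x + (1 + x * 1) * 1)
    (y + (1 + (1 + y) * 1) * 1) (1 + y + (1 + y * 1) * 1) ((1 + x) * 1 + (1 + m))
    (x * 1 + (1 + m)) ((1 + y) * 1 + m) (y * 1 + m) := by
  unfold Loc; decide

lemma loc_h : ∀ x y l w : ZMod 2, Loc (x + (1 + l)) (1 + x + (1 + l)) (y + l) (1 + y + l)
    ((1 + x) * 0 + (1 + (x + (1 + l))) * w) (x * 0 + (1 + (1 + x + (1 + l))) * w)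
    ((1 + y) * 0 + (1 + (y + l)) * w) (y * 0 + (1 + (1 + y + l)) * w) := by
  unfold Loc; decide

lemma loc_cu : ∀ a1 a2 b1 b2 c1 c2 d1 d2 : ZMod 2, Loc a1 a2 b1 b2 c1 c2 d1 d2 →
    (c1 + c2) * (a2 + b2) + (c2 + d2) * (a1 + a2) = 0 := by
  rintro a1 a2 b1 b2 c1 c2 d1 d2 (⟨rfl, rfl, rfl, rfl, h5, h6⟩ | ⟨rfl, rfl, rfl, rfl, h5, h6⟩ |
    ⟨rfl, rfl, rfl, rfl, h5, h6⟩)
  · revert a1 a2 b1 b2; decide
  · revert c1 c2 d1 d2; decide
  · revert a1 a2 b1 b2; decide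

lemma loc_full : ∀ a1 a2 b1 b2 c1 c2 d1 d2 : ZMod 2, Loc a1 a2 b1 b2 c1 c2 d1 d2 →
    a1 + a2 = 0 → c1 + c2 = 0 → False := by
  rintro a1 a2 b1 b2 c1 c2 d1 d2 (⟨rfl, rfl, rfl, rfl, h5, h6⟩ | ⟨rfl, rfl, rfl, rfl, h5, h6⟩ |
    ⟨rfl, rfl, rfl, rfl, h5, h6⟩)
  · revert a1 a2 b1 b2; decide
  · revert c1 c2 d1 d2; decide
  · revert a1 a2 b1 b2; decide

lemma loc_u : ∀ a1 a2 b1 b2 c1 c2 d1 d2 : ZMod 2, Loc a1 a2 b1 b2 c1 c2 d1 d2 →
    a1 + a2 = b1 + b2 := by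
  rintro a1 a2 b1 b2 c1 c2 d1 d2 (⟨rfl, rfl, rfl, rfl, h5, h6⟩ | ⟨rfl, rfl, rfl, rfl, h5, h6⟩ |
    ⟨rfl, rfl, rfl, rfl, h5, h6⟩)
  · revert a1 a2 b1 b2; decide
  · revert c1 c2 d1 d2; decide
  · revert a1 a2 b1 b2; decide

lemma loc_T : ∀ a1 a2 b1 b2 c1 c2 d1 d2 : ZMod 2, Loc a1 a2 b1 b2 c1 c2 d1 d2 →
    (c1 = 0 ∧ c2 = 0 ∧ d1 = 0 ∧ d2 = 0) ∨ (c1 + c2 = 1 ∧ d1 + d2 = 1) := by
  rintro a1 a2 b1 b2 c1 c2 d1 d2 (⟨rfl, rfl, rfl, rfl, h5, h6⟩ | ⟨rfl, rfl, rfl, rfl, h5, h6⟩ |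
    ⟨rfl, rfl, rfl, rfl, h5, h6⟩)
  · exact Or.inl ⟨rfl, rfl, rfl, rfl⟩
  · exact Or.inr ⟨h5, h6⟩
  · revert a1 a2 b1 b2; decide

/-- the products of step 6 -/
lemma loc_X1 : ∀ a1 a2 b1 b2 c1 c2 d1 d2 z : ZMod 2, Loc a1 a2 b1 b2 c1 c2 d1 d2 →
    (((1 + c1) * z * (1 + a1 + c1) = 0 ∧ (1 + c2) * z * (1 + a2 + c2) = 0 ∧
      (1 + d1) * z * (1 + b1 + d1) = 0 ∧ (1 + d2) * z * (1 + b2 + d2) = 0) ∨
      ((1 + c1) * z * (1 + a1 + c1) + (1 + c2) * z * (1 + a2 + c2) = 1 ∧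
      (1 + d1) * z * (1 + b1 + d1) + (1 + d2) * z * (1 + b2 + d2) = 1)) ∧
    ((1 + c1) * z * (1 + a1 + c1) + (1 + c2) * z * (1 + a2 + c2)) * (a2 + b2) +
      ((1 + c2) * z * (1 + a2 + c2) + (1 + d2) * z * (1 + b2 + d2)) * (a1 + a2) = 0 ∧
    ((1 + c1) * z * (1 + a1 + c1) + (1 + c2) * z * (1 + a2 + c2)) * (c2 + d2) +
      ((1 + c2) * z * (1 + a2 + c2) + (1 + d2) * z * (1 + b2 + d2)) * (c1 + c2) = 0 := by
  rintro a1 a2 b1 b2 c1 c2 d1 d2 z (⟨rfl, rfl, rfl, rfl, h5, h6⟩ | ⟨rfl, rfl, rfl, rfl, h5, h6⟩ |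
    ⟨rfl, rfl, rfl, rfl, h5, h6⟩)
  · revert a1 a2 b1 b2 z; decide
  · revert c1 c2 d1 d2 z; decide
  · revert a1 a2 b1 b2 z; decide

lemma loc_X2 : ∀ a1 a2 b1 b2 c1 c2 d1 d2 z : ZMod 2, Loc a1 a2 b1 b2 c1 c2 d1 d2 →
    (((1 + (1 + c1) * z) * a1 = 0 ∧ (1 + (1 + c2) * z) * a2 = 0 ∧
      (1 + (1 + d1) * z) * b1 = 0 ∧ (1 + (1 + d2) * z) * b2 = 0) ∨
      ((1 + (1 + c1) * z) * a1 + (1 + (1 + c2) * z) * a2 = 1 ∧
      (1 + (1 + d1) * z) * b1 + (1 + (1 + d2) * z) * b2 = 1)) ∧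
    ((1 + (1 + c1) * z) * a1 + (1 + (1 + c2) * z) * a2) * (a2 + b2) +
      ((1 + (1 + c2) * z) * a2 + (1 + (1 + d2) * z) * b2) * (a1 + a2) = 0 ∧
    ((1 + (1 + c1) * z) * a1 + (1 + (1 + c2) * z) * a2) * (c2 + d2) +
      ((1 + (1 + c2) * z) * a2 + (1 + (1 + d2) * z) * b2) * (c1 + c2) = 0 := by
  rintro a1 a2 b1 b2 c1 c2 d1 d2 z (⟨rfl, rfl, rfl, rfl, h5, h6⟩ | ⟨rfl, rfl, rfl, rfl, h5, h6⟩ |
    ⟨rfl, rfl, rfl, rfl, h5, h6⟩)
  · revert a1 a2 b1 b2 z; decide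
  · revert c1 c2 d1 d2 z; decide
  · revert a1 a2 b1 b2 z; decide

/-- step 6, the end: `T` is not zero -/
lemma loc_end : ∀ a1 a2 b1 b2 c1 c2 d1 d2 z : ZMod 2, Loc a1 a2 b1 b2 c1 c2 d1 d2 →
    (1 + c1) * z * (1 + a1 + c1) = 0 → (1 + c2) * z * (1 + a2 + c2) = 0 →
    (1 + (1 + c1) * z) * a1 = 0 → (1 + (1 + c2) * z) * a2 = 0 → c1 + c2 = 1 ∧ d1 + d2 = 1 := by
  rintro a1 a2 b1 b2 c1 c2 d1 d2 z (⟨rfl, rfl, rfl, rfl, h5, h6⟩ | ⟨rfl, rfl, rfl, rfl, h5, h6⟩ |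
    ⟨rfl, rfl, rfl, rfl, h5, h6⟩)
  · intro h1 h2 h3 h4
    exfalso
    revert a1 a2 z
    decide
  · exact fun _ _ _ _ => ⟨h5, h6⟩
  · intro _ _ _ _
    exact ⟨(show ∀ x y : ZMod 2, x + y = 1 → 1 + x + (1 + y) = 1 by decide) _ _ h5,
      (show ∀ x y : ZMod 2, x + y = 1 → 1 + x + (1 + y) = 1 by decide) _ _ h6⟩

lemma sum_one {n : ℕ} [NeZero n] (F : ZMod n → ZMod 2) (i1 : ZMod n) (x1 : ZMod 2)
    (h : ∀ i, F i = if i = i1 then x1 else 0) : ∑ i, F i = x1 := by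
  rw [Finset.sum_congr rfl (fun i _ => h i)]
  simp

/-- The bridge of an alternating pair is not covered by a compatible pair. -/
lemma not_cover {n : ℕ} [NeZero n] (p : Equiv.Perm (ZMod n)) (X Y ua ub th ta w : ZMod n → ZMod 2)
    (b : ZMod n) (hX : Alt p X Y) (hu : ∀ i, ua (i - 1) + ua i = ub (p i - 1) + ub (p i))
    (k2 : th (b - 1) = 1 ∧ th b = 1 ∧ ta (p b - 1) = 0 ∧ ta (p b) = 0)
    (hw : ∀ i, i ≠ b → th (i - 1) = (1 + X (i - 1)) * w i ∧ th i = (1 + X i) * w i ∧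
      ta (p i - 1) = (1 + Y (p i - 1)) * w i ∧ ta (p i) = (1 + Y (p i)) * w i)
    (cu : ∀ i, (X (i - 1) + X i) * (ua i + ub (p i)) + (X i + Y (p i)) * (ua (i - 1) + ua i) = 0) :
    ua (b - 1) + ua b = 0 := by
  have hpair := pairing p ua ub th ta hu (by
    intro i
    by_cases hi : i = b
    · subst hi
      rw [k2.1, k2.2.1, k2.2.2.1, k2.2.2.2]; decide
    · obtain ⟨g1, g2, g3, g4⟩ := hw i hi
      rw [g1, g2, g3, g4]
      have hki := hX i
      exact (show ∀ z1 z2 z3 z4 z5 : ZMod 2, ((z1 = 0 ∧ z2 = 0 ∧ z3 = 0 ∧ z4 = 0) ∨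
        (z1 + z2 = 1 ∧ z3 + z4 = 1)) → (1 + z1) * z5 + (1 + z2) * z5 = (1 + z3) * z5 + (1 + z4) * z5
        by decide) _ _ _ _ _ hki)
  have hsum := sum_one _ b (ua (b - 1) + ua b) (show ∀ i,
      (ua (i - 1) + ua i) * (th i + ta (p i)) + (ua i + ub (p i)) * (th (i - 1) + th i) =
      if i = b then ua (b - 1) + ua b else 0 by
    intro i
    by_cases hi : i = b
    · subst hi
      rw [if_pos rfl, k2.1, k2.2.1, k2.2.2.2]
      exact (show ∀ z1 z2 : ZMod 2, z1 * (1 + 0) + z2 * (1 + 1) = z1 by decide) _ _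
    · obtain ⟨g1, g2, g3, g4⟩ := hw i hi
      rw [if_neg hi, g1, g2, g4]
      exact (show ∀ d e x1 x2 y w : ZMod 2, (x1 + x2) * e + (x2 + y) * d = 0 →
        d * ((1 + x2) * w + (1 + y) * w) + e * ((1 + x1) * w + (1 + x2) * w) = 0 by decide)
        _ _ _ _ _ _ (cu i))
  exact hsum.symm.trans hpair

theorem core {n : ℕ} [NeZero n] (hn : 5 ≤ n) (hodd : n % 2 = 1) (p : Equiv.Perm (ZMod n))
    (hC : Crit p) (f : ZMod n) (hg : p (f + 2) = p f + 1) : n = 5 := by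
  obtain ⟨s, t, v1, hs1, hs2, ht1, ht2, hv1⟩ := stepA hn hodd p hC f
  obtain ⟨hve, hvg, h, da, db, v, l, hhf, hhe, hhg, hvh, ah1, ah2, bh1, bh2, af1, af2, bf1, bf2,
    ae, be1, be2, ag, bg, hv⟩ := stepB hn hodd p hC f hg s t v1 hs1 hs2 ht1 ht2 hv1
  obtain ⟨k, ea, eb, w, m, hkf, hke, hkg, hkh, hv1k, hvk, ak1, ak2, bk1, bk2, eaf1, eaf2, ebf1,
    ebf2, eae, ebe1, ebe2, eag, ebg, hw⟩ := stepC hn hodd p hC f hg s t v1 hs1 hs2 ht1 ht2 hv1 hve
    hvg h da db v l hhf hhe hhg hvh ah1 ah2 bh1 bh2 af1 af2 bf1 bf2 ae be1 be2 ag bg hv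
  have hstep : ∀ u i : ZMod n, i ≠ u → R u i = 1 + R u (i - 1) := R_step (by omega)
  have hpne : ∀ i, i ≠ f → p i ≠ p f := fun i hi h => hi (p.injective h)
  have hpne' : ∀ i, i ≠ f + 2 → p i - 1 ≠ p f := by
    intro i hi h
    apply hi
    apply p.injective
    rw [hg, ← h]; ring
  have hef : f + 1 ≠ f := ne_add_one hn f
  have hgf : f + 2 ≠ f := ne_add_two hn f
  have hge : f + 2 ≠ f + 1 := by
    intro h; apply ne_add_one hn (f + 1)
    rw [show f + 1 + 1 = f + 2 by ring]; exact h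
  have hq2 : p f + 1 ≠ p f := ne_add_one hn _
  have e1 : f + 1 - 1 = f := by ring
  have e2 : f + 2 - 1 = f + 1 := by ring
  have e3 : p (f + 2) - 1 = p f := by rw [hg]; ring
  have hse : s (f + 1) = 0 := by
    have h1 := (hv1 (f + 1) hef).2.1
    rw [e1, R_self] at h1
    rw [h1]; ring
  have hsg : s (f + 2) = 0 := by
    have h1 := (hv1 (f + 2) hgf).2.1
    rw [h1, hvg, mul_zero]
  have htg : t (p f + 1) = 0 := by
    have h1 := (hv1 (f + 2) hgf).2.2.2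
    rw [← hg, h1, hvg, mul_zero]
  have hRe : R f (f + 1) = 1 := by
    rw [hstep f _ hef, e1, R_self]; decide
  have hRg : R f (f + 2) = 0 := by
    rw [hstep f _ hgf, e2, hRe]; decide
  have hRq : R (p f) (p f + 1) = 1 := by
    rw [hstep _ _ hq2, add_sub_cancel_right, R_self]; decide
  have hRf1 : R f (f - 1) = 0 := R_pred (by omega) hodd _
  have hRq1 : R (p f) (p f - 1) = 0 := R_pred (by omega) hodd _
  -- the pairs `u` and `T`
  obtain ⟨ua, hua⟩ : ∃ ua : ZMod n → ZMod 2, ∀ i, ua i = R f i + da i := ⟨_, fun _ => rfl⟩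
  obtain ⟨ub, hub⟩ : ∃ ub : ZMod n → ZMod 2, ∀ j, ub j = R (p f) j + db j := ⟨_, fun _ => rfl⟩
  obtain ⟨Ta, hTa⟩ : ∃ Ta : ZMod n → ZMod 2, ∀ i, Ta i = s i + ea i := ⟨_, fun _ => rfl⟩
  obtain ⟨Tb, hTb⟩ : ∃ Tb : ZMod n → ZMod 2, ∀ j, Tb j = t j + eb j := ⟨_, fun _ => rfl⟩
  -- values at f
  have uaf1 : ua (f - 1) = 0 := by rw [hua, hRf1, af1]; decide
  have uaf : ua f = 0 := by rw [hua, R_self, af2]; decide
  have ubf1 : ub (p f - 1) = 0 := by rw [hub, hRq1, bf1]; decide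
  have ubf : ub (p f) = 0 := by rw [hub, R_self, bf2]; decide
  have Taf1 : Ta (f - 1) = 0 := by rw [hTa, hs1, eaf1]; decide
  have Taf : Ta f = 1 := by rw [hTa, hs2, eaf2]; decide
  have Tbf1 : Tb (p f - 1) = 1 := by rw [hTb, ht1, ebf1]; decide
  have Tbf : Tb (p f) = 0 := by rw [hTb, ht2, ebf2]; decide
  -- values at e
  have uae : ua (f + 1) = 1 := by rw [hua, hRe, ae]; decide
  have Tae : Ta (f + 1) = 0 := by rw [hTa, hse, eae]; decide
  -- values at g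
  have uag : ua (f + 2) = 1 := by rw [hua, hRg, ag]; decide
  have ubg : ub (p f + 1) = 0 := by rw [hub, hRq, bg]; decide
  have Tag : Ta (f + 2) = 0 := by rw [hTa, hsg, eag]; decide
  have Tbg : Tb (p f + 1) = 0 := by rw [hTb, htg, ebg]; decide
  have hloc : ∀ i, i ≠ f + 2 → Loc (ua (i - 1)) (ua i) (ub (p i - 1)) (ub (p i)) (Ta (i - 1))
      (Ta i) (Tb (p i - 1)) (Tb (p i)) := by
    intro i hi3
    by_cases hi : i = f
    · subst hi
      rw [uaf1, uaf, ubf1, ubf, Taf1, Taf, Tbf1, Tbf]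
      unfold Loc; decide
    obtain ⟨g1, g2, g3, g4⟩ := hv1 i hi
    by_cases hi2 : i = f + 1
    · subst hi2
      rw [e1, uaf, uae, Taf, Tae, hub, hub, hTb, hTb, be1, be2, ebe1, ebe2, g3, g4, hve,
        hstep (p f) _ (hpne _ hef)]
      unfold Loc
      generalize R (p f) (p (f + 1) - 1) = z
      revert z; decide
    by_cases hi4 : i = k
    · subst hi4
      obtain ⟨m1, m2, m3, m4⟩ := hv i hi hi2 hi3 hkh
      rw [hua, hua, hub, hub, hTa, hTa, hTb, hTb, m1, m2, m3, m4, ak1, ak2, bk1, bk2,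
        g1, g2, g3, g4, hv1k, hvk, hstep f i hi, hstep (p f) (p i) (hpne i hi)]
      exact loc_k _ _ _
    obtain ⟨r1, r2, r3, r4⟩ := hw i hi hi2 hi3 hi4
    by_cases hi5 : i = h
    · subst hi5
      rw [hua, hua, hub, hub, hTa, hTa, hTb, hTb, r1, r2, r3, r4, ah1, ah2, bh1, bh2,
        g1, g2, g3, g4, hvh, hstep f i hi, hstep (p f) (p i) (hpne i hi)]
      exact loc_h _ _ _ _
    · obtain ⟨m1, m2, m3, m4⟩ := hv i hi hi2 hi3 hi5
      rw [hua, hua, hub, hub, hTa, hTa, hTb, hTb, r1, r2, r3, r4, m1, m2, m3, m4,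
        g1, g2, g3, g4, hstep f i hi, hstep (p f) (p i) (hpne i hi)]
      unfold Loc
      generalize R f (i - 1) = z1
      generalize R (p f) (p i - 1) = z2
      generalize w i = z3
      generalize v i = z4
      generalize v1 i = z5
      revert z1 z2 z3 z4 z5
      decide
  -- evenness
  have hu : ∀ i, ua (i - 1) + ua i = ub (p i - 1) + ub (p i) := by
    intro i
    by_cases hi : i = f + 2
    · subst hi
      rw [e2, uae, uag, e3, hg, ubf, ubg]; decide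
    · exact loc_u _ _ _ _ _ _ _ _ (hloc i hi)
  have hTalt : Alt p Ta Tb := by
    intro i
    by_cases hi : i = f + 2
    · subst hi
      rw [e2, Tae, Tag, e3, hg, Tbf, Tbg]; decide
    · exact loc_T _ _ _ _ _ _ _ _ (hloc i hi)
  have hTev : ∀ i, Ta (i - 1) + Ta i = Tb (p i - 1) + Tb (p i) := by
    intro i
    exact (show ∀ c1 c2 d1 d2 : ZMod 2, (c1 = 0 ∧ c2 = 0 ∧ d1 = 0 ∧ d2 = 0) ∨
      (c1 + c2 = 1 ∧ d1 + d2 = 1) → c1 + c2 = d1 + d2 by decide) _ _ _ _ (hTalt i)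
  -- step 5: (Z)
  have hZ : ∀ X Y : ZMod n → ZMod 2, Alt p X Y → X f = 0 → X (f + 1) = 0 → Y (p f) = 0 →
      (∀ i, (X (i - 1) + X i) * (ua i + ub (p i)) + (X i + Y (p i)) * (ua (i - 1) + ua i) = 0) →
      (∀ i, (X (i - 1) + X i) * (Ta i + Tb (p i)) + (X i + Y (p i)) * (Ta (i - 1) + Ta i) = 0) →
      X (f - 1) = 0 → X (f + 2) = 0 → ∀ i, X i = 0 := by
    intro X Y hX x1 x2 x3 cu cT x4 x5 i
    by_contra hcon
    have hi1 : X i = 1 := (show ∀ z : ZMod 2, z ≠ 0 → z = 1 by decide) _ hcon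
    obtain ⟨b, th, ta, k1, k2, k3⟩ := hC X Y hX ⟨i, hi1⟩
    choose! z hz using k3
    have c1 := not_cover p X Y ua ub th ta z b hX hu k2 hz cu
    have c2 := not_cover p X Y Ta Tb th ta z b hX hTev k2 hz cT
    have hb : b = f + 2 := by
      by_contra hb
      exact loc_full _ _ _ _ _ _ _ _ (hloc b hb) c1 c2
    subst hb
    obtain ⟨m1, m2, -, -⟩ := hz (f + 1) hge.symm
    obtain ⟨n1, n2, n3, n4⟩ := hz f hgf.symm
    have k21 := k2.1
    have k23 := k2.2.2.1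
    rw [e2] at k21
    rw [e3] at k23
    rw [e1, x1] at m1
    rw [x2, k21] at m2
    rw [x1] at n2
    rw [x3, k23] at n4
    exact (show ∀ q z1 z2 : ZMod 2, q = (1 + 0) * z1 → 1 = (1 + 0) * z1 → q = (1 + 0) * z2 →
      0 = (1 + 0) * z2 → False by decide) _ _ _ m1 m2 n2 n4
  -- step 6
  obtain ⟨b, th, ta, k1, k2, k3⟩ := hC Ta Tb hTalt ⟨f, Taf⟩
  choose! z hz using k3
  have cTu : ∀ i, (Ta (i - 1) + Ta i) * (ua i + ub (p i)) + (Ta i + Tb (p i)) *
      (ua (i - 1) + ua i) = 0 := by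
    intro i
    by_cases hi : i = f + 2
    · subst hi
      rw [e2, Tae, Tag, hg, Tbg]
      ring
    · exact loc_cu _ _ _ _ _ _ _ _ (hloc i hi)
  have hb : b = f + 2 := by
    by_contra hb
    have c1 := not_cover p Ta Tb ua ub th ta z b hTalt hu k2 hz cTu
    apply loc_full _ _ _ _ _ _ _ _ (hloc b hb) c1
    rw [k1.1, k1.2.1]; decide
  subst hb
  obtain ⟨m1, m2, m3, m4⟩ := hz (f + 1) hge.symm
  obtain ⟨n1, n2, n3, n4⟩ := hz f hgf.symm
  have k21 := k2.1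
  have k23 := k2.2.2.1
  have k24 := k2.2.2.2
  rw [e2] at k21
  rw [e3] at k23
  rw [hg] at k24
  have zf : z f = 0 := by
    rw [Tbf, k23] at n4
    exact (show ∀ z1 : ZMod 2, 0 = (1 + 0) * z1 → z1 = 0 by decide) _ n4
  have ze : z (f + 1) = 1 := by
    rw [Tae, k21] at m2
    exact (show ∀ z1 : ZMod 2, 1 = (1 + 0) * z1 → z1 = 1 by decide) _ m2
  have thf : th f = 0 := by rw [n2, zf, mul_zero]
  have thf1 : th (f - 1) = 0 := by rw [n1, zf, mul_zero]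
  have taf1 : ta (p f - 1) = 0 := by rw [n3, zf, mul_zero]
  have hx1 : ∀ i, th i * (1 + ua i + Ta i) = 0 := by
    refine hZ (fun i => th i * (1 + ua i + Ta i)) (fun j => ta j * (1 + ub j + Tb j)) ?_ ?_ ?_ ?_
      ?_ ?_ ?_ ?_
    · intro i
      by_cases hi : i = f + 2
      · subst hi
        left
        try simp only
        rw [e2, uae, Tae, uag, Tag, e3, k23, hg, k24]
        refine ⟨?_, ?_, by ring, by ring⟩
        · generalize th (f + 1) = q; revert q; decide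
        · generalize th (f + 2) = q; revert q; decide
      · obtain ⟨g1, g2, g3, g4⟩ := hz i hi
        try simp only
        rw [g1, g2, g3, g4]
        exact (loc_X1 _ _ _ _ _ _ _ _ _ (hloc i hi)).1
    · try simp only
      rw [thf, zero_mul]
    · try simp only
      rw [uae, Tae]; generalize th (f + 1) = q; revert q; decide
    · try simp only
      rw [k23, zero_mul]
    · intro i
      by_cases hi : i = f + 2
      · subst hi
        try simp only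
        rw [e2, uae, Tae, uag, Tag, hg, k24]
        generalize th (f + 1) = q
        generalize th (f + 2) = q'
        generalize 1 + ub (p f + 1) + Tb (p f + 1) = q''
        generalize ub (p f + 1) = q'''
        revert q q' q'' q'''; decide
      · obtain ⟨g1, g2, g3, g4⟩ := hz i hi
        try simp only
        rw [g1, g2, g4]
        exact (loc_X1 _ _ _ _ _ _ _ _ _ (hloc i hi)).2.1
    · intro i
      by_cases hi : i = f + 2
      · subst hi
        try simp only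
        rw [e2, uae, Tae, uag, Tag, hg, k24]
        generalize th (f + 1) = q
        generalize th (f + 2) = q'
        generalize 1 + ub (p f + 1) + Tb (p f + 1) = q''
        generalize Tb (p f + 1) = q'''
        revert q q' q'' q'''; decide
      · obtain ⟨g1, g2, g3, g4⟩ := hz i hi
        try simp only
        rw [g1, g2, g4]
        exact (loc_X1 _ _ _ _ _ _ _ _ _ (hloc i hi)).2.2
    · try simp only
      rw [thf1, zero_mul]
    · try simp only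
      rw [uag, Tag]; generalize th (f + 2) = q; revert q; decide
  have hx2 : ∀ i, (1 + th i) * ua i = 0 := by
    refine hZ (fun i => (1 + th i) * ua i) (fun j => (1 + ta j) * ub j) ?_ ?_ ?_ ?_ ?_ ?_ ?_ ?_
    · intro i
      by_cases hi : i = f + 2
      · subst hi
        left
        try simp only
        rw [e2, uae, uag, e3, ubf, hg, ubg, k21, k2.2.1]
        refine ⟨by decide, by decide, by ring, by ring⟩
      · obtain ⟨g1, g2, g3, g4⟩ := hz i hi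
        try simp only
        rw [g1, g2, g3, g4]
        exact (loc_X2 _ _ _ _ _ _ _ _ _ (hloc i hi)).1
    · try simp only
      rw [uaf, mul_zero]
    · try simp only
      rw [k21]
      generalize ua (f + 1) = q; revert q; decide
    · try simp only
      rw [ubf, mul_zero]
    · intro i
      by_cases hi : i = f + 2
      · subst hi
        try simp only
        rw [e2, k21, k2.2.1, hg, ubg]
        generalize ua (f + 1) = q
        generalize ua (f + 2) = q'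
        generalize ta (p f + 1) = q''
        revert q q' q''; decide
      · obtain ⟨g1, g2, g3, g4⟩ := hz i hi
        try simp only
        rw [g1, g2, g4]
        exact (loc_X2 _ _ _ _ _ _ _ _ _ (hloc i hi)).2.1
    · intro i
      by_cases hi : i = f + 2
      · subst hi
        try simp only
        rw [e2, k21, k2.2.1, hg, ubg]
        generalize ua (f + 1) = q
        generalize ua (f + 2) = q'
        generalize ta (p f + 1) = q''
        generalize Ta (f + 2) + Tb (p f + 1) = r1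
        generalize Ta (f + 1) + Ta (f + 2) = r2
        revert q q' q'' r1 r2; decide
      · obtain ⟨g1, g2, g3, g4⟩ := hz i hi
        try simp only
        rw [g1, g2, g4]
        exact (loc_X2 _ _ _ _ _ _ _ _ _ (hloc i hi)).2.2
    · try simp only
      rw [uaf1, mul_zero]
    · try simp only
      rw [k2.2.1]
      generalize ua (f + 2) = q; revert q; decide
  -- `T` is nowhere zero except at g
  have hT1 : ∀ i, i ≠ f + 2 → Ta (i - 1) + Ta i = 1 ∧ Tb (p i - 1) + Tb (p i) = 1 := by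
    intro i hi
    obtain ⟨g1, g2, -, -⟩ := hz i hi
    have q1 := hx1 (i - 1)
    have q2 := hx1 i
    have q3 := hx2 (i - 1)
    have q4 := hx2 i
    rw [g1] at q1 q3
    rw [g2] at q2 q4
    exact loc_end _ _ _ _ _ _ _ _ _ (hloc i hi) q1 q2 q3 q4
  have hTaR : ∀ i, Ta i = R (f + 2) i :=
    alt_unique (f + 2) Ta Tag (fun i hi => (hT1 i hi).1)
  have hTbR : ∀ j, Tb j = R (p f + 1) j := by
    refine alt_unique (p f + 1) Tb Tbg (fun j hj => ?_)
    have h1 : p.symm j ≠ f + 2 := by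
      intro h; apply hj; rw [← hg, ← h, Equiv.apply_symm_apply]
    have h2 := (hT1 _ h1).2
    rwa [Equiv.apply_symm_apply] at h2
  -- step 7
  have hfin : ∀ i, i = f ∨ i = f + 1 ∨ i = f + 2 ∨ i = h ∨ i = k := by
    intro i
    by_contra hcon
    push Not at hcon
    obtain ⟨i1, i2, i3, i4, i5⟩ := hcon
    have r1 : R (f + 2) i = R f i := by
      have q1 := R_shift (by omega) f i i1
      have q2 := R_shift (by omega) (f + 1) i i2
      rw [show f + 1 + 1 = f + 2 by ring] at q2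
      rw [q2, q1]
      generalize R f i = z; revert z; decide
    have r2 : R (p f + 1) (p i) = 1 + R (p f) (p i) := R_shift (by omega) _ _ (hpne i i1)
    have t1 := hTaR i
    have t2 := hTbR (p i)
    have t3 := (hT1 i i3).1
    rw [r1] at t1
    rw [r2] at t2
    obtain ⟨g1, g2, g3, g4⟩ := hv1 i i1
    obtain ⟨m1, m2, m3, m4⟩ := hv i i1 i2 i3 i4
    obtain ⟨s1, s2, s3, s4⟩ := hw i i1 i2 i3 i5
    rw [hTa, s2, m2, g2, hstep f i i1] at t1
    rw [hTb, s4, m4, g4, hstep (p f) (p i) (hpne i i1)] at t2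
    rw [hTa, hTa, s1, s2, m1, m2, g1, g2, hstep f i i1] at t3
    exact (show ∀ x y z1 z2 z3 : ZMod 2,
      x * z1 + (1 + (1 + x + (1 + x * z1) * z2)) * z3 = 1 + x →
      y * z1 + (1 + (1 + y + (1 + y * z1) * z2)) * z3 = 1 + (1 + y) →
      (1 + x) * z1 + (1 + (x + (1 + (1 + x) * z1) * z2)) * z3 +
        (x * z1 + (1 + (1 + x + (1 + x * z1) * z2)) * z3) = 1 → False by decide)
      _ _ _ _ _ t1 t2 t3
  have hcard : Fintype.card (ZMod n) ≤ 5 := by
    have h1 : (Finset.univ : Finset (ZMod n)) ⊆ {f, f + 1, f + 2, h, k} := by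
      intro i _
      have := hfin i
      simp only [Finset.mem_insert, Finset.mem_singleton]
      exact this
    calc Fintype.card (ZMod n) = (Finset.univ : Finset (ZMod n)).card := rfl
      _ ≤ ({f, f + 1, f + 2, h, k} : Finset (ZMod n)).card := Finset.card_le_card h1
      _ ≤ 5 := Finset.card_le_five
  rw [ZMod.card] at hcard
  omega

end Pool.Agent.H64.Pent
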