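import Mathlib
import Pool.Agent.H64.Pent.Core
import Pool.Agent.H59.Pent.CritOf
import Pool.Agent.H61.Pent.Numb
import Pool.Agent.H76.Pent.Short
import Pool.Agent.H50.Pent.Iso
import Pool.Agent.H73.Pent.Sym

set_option autoImplicit false

/-!
Critical contra pairs on permutation graphs with a circuit of length at most five (MP_a46c6f_co).
-/

namespace Pool.Agent.H64.Pent

open SimpleGraph Pool.Agent.H5.Goddyn Pool.Agent.H98.TC

variable {V : Type*}

theorem fin_plus [Finite V] (G : SimpleGraph V) (M C₁ C₂ : G.Subgraph)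
    (h : IsPermutationGraph G M C₁ C₂) (hrem : ∀ C : G.Subgraph, ¬ Removable G (wt M) C) {n : ℕ}
    (hn : 3 ≤ n) (x y : ZMod n → V) (p : Equiv.Perm (ZMod n)) (hx : Numb C₁ x) (hy : Numb C₂ y)
    (hM : ∀ i, M.Adj (x i) (y (p i))) (f : ZMod n) (hp : p (f + 2) = p f + 1) :
    IsPetersenPair G M := by
  have hC : Crit p := Pool.Agent.H59.Pent.crit_of_removable G M C₁ C₂ h hrem hn x y p hx hy hM
  have : NeZero n := ⟨by omega⟩
  have h5 := Pool.Agent.H73.Pent.big hn p hC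
  have hodd := Pool.Agent.H73.Pent.odd_of_crit hn p hC
  have h6 : n = 5 := core h5 hodd p hC f hp
  subst h6
  exact Pool.Agent.H50.Pent.petersen_of_numb G M C₁ C₂ h x y p hx hy hM f
    (Pool.Agent.H73.Pent.final_five p hC f hp)

theorem fin_minus [Finite V] (G : SimpleGraph V) (M C₁ C₂ : G.Subgraph)
    (h : IsPermutationGraph G M C₁ C₂) (hrem : ∀ C : G.Subgraph, ¬ Removable G (wt M) C) {n : ℕ}
    (hn : 3 ≤ n) (x y : ZMod n → V) (p : Equiv.Perm (ZMod n)) (hx : Numb C₁ x) (hy : Numb C₂ y)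
    (hM : ∀ i, M.Adj (x i) (y (p i))) (f : ZMod n) (hp : p (f + 2) = p f - 1) :
    IsPetersenPair G M := by
  refine fin_plus G M C₁ C₂ h hrem hn (fun i => x (-i)) y ((Equiv.neg (ZMod n)).trans p)
    (Pool.Agent.H61.Pent.numb_neg hx) hy (fun i => hM (-i)) (-(f + 2)) ?_
  show p (-(-(f + 2) + 2)) = p (-(-(f + 2))) + 1
  rw [show -(-(f + 2) + 2) = f by ring, show -(-(f + 2)) = f + 2 by ring, hp]
  ring

theorem fin_both [Finite V] (G : SimpleGraph V) (M C₁ C₂ : G.Subgraph)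
    (h : IsPermutationGraph G M C₁ C₂) (hrem : ∀ C : G.Subgraph, ¬ Removable G (wt M) C) {n : ℕ}
    (hn : 3 ≤ n) (x y : ZMod n → V) (p : Equiv.Perm (ZMod n)) (hx : Numb C₁ x) (hy : Numb C₂ y)
    (hM : ∀ i, M.Adj (x i) (y (p i))) (hp : ∃ f, p (f + 2) = p f + 1 ∨ p (f + 2) = p f - 1) :
    IsPetersenPair G M := by
  obtain ⟨f, hp | hp⟩ := hp
  · exact fin_plus G M C₁ C₂ h hrem hn x y p hx hy hM f hp
  · exact fin_minus G M C₁ C₂ h hrem hn x y p hx hy hM f hp

theorem main [Finite V] (G : SimpleGraph V) (M C₁ C₂ : G.Subgraph)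
    (h : IsPermutationGraph G M C₁ C₂) (hcrit : IsCriticalContraPair G (wt M))
    (hshort : ∃ (v : V) (c : G.Walk v v), c.IsCycle ∧ c.length ≤ 5) : IsPetersenPair G M := by
  obtain ⟨v, c, hc, hl⟩ := hshort
  obtain ⟨n, x, y, p, hn, hx, hy, hM⟩ := Pool.Agent.H61.Pent.exists_numb G M C₁ C₂ h
  have hC : Crit p := Pool.Agent.H59.Pent.crit_of_removable G M C₁ C₂ h hcrit.2 hn x y p hx hy hM
  rcases Pool.Agent.H76.Pent.short_cycle G M C₁ C₂ h hn x y p hx hy hM v c hc hl with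
    h1 | ⟨i, h1⟩ | h1 | h1
  · have h2 := Pool.Agent.H73.Pent.big hn p hC
    have h3 : n = 5 := by omega
    subst h3
    exact fin_both G M C₁ C₂ h hcrit.2 hn x y p hx hy hM (Pool.Agent.H73.Pent.pent_of_five p hC)
  · have h2 := Pool.Agent.H73.Pent.no_four hn p hC i
    rcases h1 with h1 | h1
    · exact absurd h1 h2.1
    · exact absurd h1 h2.2
  · exact fin_both G M C₁ C₂ h hcrit.2 hn x y p hx hy hM h1
  · refine fin_both G M C₂ C₁ (swap' h) hcrit.2 hn y x p.symm hy hx (fun j => ?_) h1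
    have h2 := (hM (p.symm j)).symm
    rwa [Equiv.apply_symm_apply] at h2

end Pool.Agent.H64.Pent
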